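import Pool.Agent.K1H88.T3.Stm

/-! # T3-FB: the limit (adapted from K1H81/TT/FB of helper4) -/

set_option autoImplicit false

namespace Pool.Agent.K1H88.T3

open Finset Filter Topology

namespace FB

lemma Yh_tendsto : Tendsto Yh atTop atTop := by
  show Tendsto (fun Z : ℕ => ((Z : ℝ) / 78732) ^ ((1 : ℝ) / 12)) atTop atTop
  refine (tendsto_rpow_atTop (by norm_num : (0 : ℝ) < 1 / 12)).comp ?_
  exact tendsto_natCast_atTop_atTop.atTop_div_const (by norm_num)

lemma mem_adm {Y : ℝ} {z : ℤ × ℤ} (h : z ∈ FS Y) : Adm z.1 z.2 := by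
  classical
  unfold FS at h
  rw [Finset.mem_filter] at h
  exact h.2.1

/-- for a set of signs -/
lemma sign_count (s : Finset (ℤ × ℤ)) (f : ℤ × ℤ → ℤ) (hf : ∀ z ∈ s, f z = 1 ∨ f z = -1) (e : ℤ)
    (he : e = 1 ∨ e = -1) : by classical exact
    2 * (((s.filter fun z => f z = e).card : ℕ) : ℤ) - (s.card : ℤ) = e * ∑ z ∈ s, f z := by
  classical
  rw [Finset.card_filter, Finset.card_eq_sum_ones, Finset.mul_sum]
  push_cast
  rw [Finset.mul_sum, ← Finset.sum_sub_distrib]
  refine Finset.sum_congr rfl fun z hz => ?_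
  rcases hf z hz with h | h <;> rcases he with h' | h' <;> simp [h, h']

end FB

theorem t_FB (hF : S_FA) (hA : S_ANA) (hL : S_LOW) (hs : S_SGN) : S_FIN := by
  classical
  obtain ⟨c, hc, Y0, hL⟩ := hL
  have hT : ∀ Z : ℕ, 2 * (Fam (fun _ => True) Z).ncard = (FS (Yh Z)).card := by
    intro Z
    have h := (hF Z fun _ => True).2
    rw [h]
    refine congrArg Finset.card ?_
    ext z
    simp only [Finset.mem_filter, and_true]
  have hE : ∀ (Z : ℕ) (s : ℤ), s = 1 ∨ s = -1 →
      2 * (2 * ((Fam (fun w => w = s) Z).ncard : ℝ)) - 2 * ((Fam (fun _ => True) Z).ncard : ℝ) =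
        s * ((∑ z ∈ FS (Yh Z), w z.1 z.2 : ℤ) : ℝ) := by
    intro Z s he
    have h1 := FB.sign_count (FS (Yh Z)) (fun z => w z.1 z.2)
      (fun z hz => (hs _ _ (FB.mem_adm hz)).2.2) s he
    have h2 := (hF Z fun w => w = s).2
    have h3 := hT Z
    have h4 : ((FS (Yh Z)).filter fun z => w z.1 z.2 = s).card =
        2 * (Fam (fun w => w = s) Z).ncard := by
      rw [h2]
      refine congrArg Finset.card ?_
      ext z
      simp only [Finset.mem_filter]
    have h5 : 2 * (2 * ((Fam (fun w => w = s) Z).ncard : ℤ)) -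
        2 * ((Fam (fun _ => True) Z).ncard : ℤ) = s * ∑ z ∈ FS (Yh Z), w z.1 z.2 := by
      rw [← h1]
      have h6 : (((FS (Yh Z)).filter fun z => w z.1 z.2 = s).card : ℤ) =
          2 * ((Fam (fun w => w = s) Z).ncard : ℤ) := by exact_mod_cast h4
      have h7 : ((FS (Yh Z)).card : ℤ) = 2 * ((Fam (fun _ => True) Z).ncard : ℤ) := by
        exact_mod_cast h3.symm
      rw [h7]
      congr 2
      rw [← h6]
    exact_mod_cast h5
  have hlow : ∀ᶠ Z : ℕ in atTop, c / 2 * Yh Z ^ 4 ≤ ((Fam (fun _ => True) Z).ncard : ℝ) := by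
    filter_upwards [FB.Yh_tendsto.eventually_ge_atTop Y0] with Z hZ
    have h1 := hL _ hZ
    have h2 : ((FS (Yh Z)).card : ℝ) = 2 * ((Fam (fun _ => True) Z).ncard : ℝ) := by
      exact_mod_cast (hT Z).symm
    rw [h2] at h1
    linarith
  have hY4 : Tendsto (fun Z : ℕ => Yh Z ^ 4) atTop atTop :=
    (tendsto_pow_atTop (by norm_num)).comp FB.Yh_tendsto
  refine ⟨fun Z => (hF Z _).1, ?_, fun s he => ?_⟩
  · have h1 : Tendsto (fun Z : ℕ => ((Fam (fun _ => True) Z).ncard : ℝ)) atTop atTop :=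
      tendsto_atTop_mono' _ hlow (hY4.const_mul_atTop (by positivity))
    exact tendsto_natCast_atTop_iff.1 h1
  · rw [Metric.tendsto_nhds]
    intro ε hε
    obtain ⟨Y1, hA⟩ := hA (ε * c) (by positivity)
    filter_upwards [FB.Yh_tendsto.eventually_ge_atTop Y1, hlow,
      FB.Yh_tendsto.eventually_gt_atTop 0] with Z h1 h2 h3
    have h4 := hA _ h1
    have h5 := hE Z s he
    have hab : |(s : ℝ) * ((∑ z ∈ FS (Yh Z), w z.1 z.2 : ℤ) : ℝ)| ≤ ε * c * Yh Z ^ 4 := by
      rw [abs_mul]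
      rcases he with h | h <;> subst h <;> simpa using h4
    rw [← h5] at hab
    have hY : 0 < Yh Z ^ 4 := by positivity
    have hT0 : 0 < ((Fam (fun _ => True) Z).ncard : ℝ) := lt_of_lt_of_le (by positivity) h2
    generalize ((Fam (fun _ => True) Z).ncard : ℝ) = T at *
    generalize ((Fam (fun w => w = s) Z).ncard : ℝ) = P at *
    generalize Yh Z ^ 4 = U at *
    rw [Real.dist_eq, show P / T - 1 / 2 = (2 * (2 * P) - 2 * T) / (4 * T) by field_simp; ring,
      abs_div, abs_of_pos (show 0 < 4 * T by positivity), div_lt_iff₀ (by positivity)]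
    refine hab.trans_lt ?_
    have h6 : ε * (c / 2 * U) ≤ ε * T := mul_le_mul_of_nonneg_left h2 hε.le
    have h7 : 0 < ε * T := by positivity
    linarith

end Pool.Agent.K1H88.T3
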